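import Mathlib

/-!
# Every digraph admitting a height function is not avoidable (MP_f1492e_co, Q1)

For a finite digraph `F` with a height function, and every `d`, we construct a finite digraph `D`
of minimum out-degree at least `d` all of whose nonempty subdigraphs of minimum out-degree at
least `max 2 |V(F)|` contain `F`.

The construction: a tower of layers; layer `0` has `d` vertices, and layer `h + 1` has `M` clones
for each injective choice of `d` out-neighbours in layer `h`.  An assignment chooses for each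
vertex of the tower a set of its out-neighbours (this is what a subdigraph does).  By the
pigeonhole principle any fewer than `d` assignments are simultaneously constant (coherent) on
some `d`-subset of the top layer.  On top there are gates, one for each set `B` of assignments:
a gate with fewer than `d` assignments is joined to a coherent `d`-set, a gate with a larger set
`B` is joined to the gates `B.erase b`, `b ∈ B`.  The bottom layer is joined to (copies of) the
gate of all assignments.
-/

namespace Pool.Agent.Results.MP_f1492e_co.NotAvoidable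

/-- A digraph on the vertex type `V`: no loops, no parallel arcs, opposite arcs allowed. -/
structure Dgr (V : Type*) where
  Adj : V → V → Prop
  irrefl : ∀ v, ¬ Adj v v

/-- A (nonempty) subdigraph of `D`: a nonempty set of vertices and a set of arcs of `D` between
them. -/
structure Sub {V : Type*} (D : Dgr V) where
  verts : Set V
  nonempty : verts.Nonempty
  arcs : V → V → Prop
  arcs_le : ∀ u v, arcs u v → D.Adj u v
  src_mem : ∀ u v, arcs u v → u ∈ verts
  tgt_mem : ∀ u v, arcs u v → v ∈ verts

/-- The minimum out-degree of `D` is at least `d`. -/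
def Dgr.MinOutGe {V : Type*} (D : Dgr V) (d : ℕ) : Prop :=
  ∀ v, d ≤ {u | D.Adj v u}.ncard

/-- The minimum out-degree of the subdigraph `D'` is at least `k`. -/
def Sub.MinOutGe {V : Type*} {D : Dgr V} (D' : Sub D) (k : ℕ) : Prop :=
  ∀ v ∈ D'.verts, k ≤ {u | D'.arcs v u}.ncard

/-- The subdigraph `D'` contains (a subdigraph isomorphic to) `F`. -/
def Contains {V W : Type*} {D : Dgr V} (D' : Sub D) (F : Dgr W) : Prop :=
  ∃ φ : W → V, Function.Injective φ ∧ (∀ w, φ w ∈ D'.verts) ∧
    ∀ u v, F.Adj u v → D'.arcs (φ u) (φ v)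

/-- `F` is avoidable: there is `dF : ℕ → ℕ` such that for every `k`, every finite nonempty
digraph of minimum out-degree at least `dF k` has a nonempty subdigraph of minimum
out-degree at least `k` which does not contain `F`. -/
def Avoidable {W : Type*} (F : Dgr W) : Prop :=
  ∃ dF : ℕ → ℕ, ∀ k : ℕ, ∀ (V : Type) [Finite V] [Nonempty V] (D : Dgr V),
    D.MinOutGe (dF k) → ∃ D' : Sub D, D'.MinOutGe k ∧ ¬ Contains D' F

/-- A height function of `F`. -/
def IsHeight {W : Type*} (F : Dgr W) (h : W → ℤ) : Prop :=
  ∀ u v, F.Adj u v → h v = h u + 1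

/-! ### The tower of layers -/

/-- Trees used as names of the vertices of the tower. -/
inductive T (d M : ℕ) : Type
  | leaf : Fin d → T d M
  | node : (Fin d → T d M) → Fin M → T d M

variable {d M : ℕ}

/-- The `h`-th layer. -/
def lev : ℕ → Set (T d M)
  | 0 => {t | ∃ a, t = T.leaf a}
  | h + 1 => {t | ∃ f i, t = T.node f i ∧ Function.Injective f ∧ ∀ j, f j ∈ lev h}

theorem lev_finite : ∀ h : ℕ, (lev h : Set (T d M)).Finite
  | 0 => by
      have : (lev 0 : Set (T d M)) ⊆ Set.range T.leaf := by
        rintro t ⟨a, rfl⟩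
        exact ⟨a, rfl⟩
      exact (Set.finite_range _).subset this
  | h + 1 => by
      have ih : (lev h : Set (T d M)).Finite := lev_finite h
      have h1 : ({f : Fin d → T d M | ∀ j, f j ∈ lev h}).Finite :=
        Set.Finite.pi' (fun _ => ih)
      have h2 : (({f : Fin d → T d M | ∀ j, f j ∈ lev h}) ×ˢ (Set.univ : Set (Fin M))).Finite :=
        h1.prod Set.finite_univ
      refine (h2.image (fun p : (Fin d → T d M) × Fin M => T.node p.1 p.2)).subset ?_
      rintro t ⟨f, i, rfl, _, hf⟩
      exact ⟨(f, i), ⟨hf, Set.mem_univ _⟩, rfl⟩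

theorem node_mem_lev {f : Fin d → T d M} {i : Fin M} {h : ℕ}
    (ht : T.node f i ∈ (lev h : Set (T d M))) :
    ∃ h', h = h' + 1 ∧ Function.Injective f ∧ ∀ j, f j ∈ lev h' := by
  cases h with
  | zero =>
      obtain ⟨a, ha⟩ := ht
      exact absurd ha (by simp)
  | succ h' =>
      obtain ⟨f', i', he, hf, hm⟩ := ht
      injection he with he1 he2
      subst he1
      exact ⟨h', rfl, hf, hm⟩

theorem lev_unique (hd : 0 < d) : ∀ (h h' : ℕ) (t : T d M), t ∈ (lev h : Set (T d M)) →
    t ∈ (lev h' : Set (T d M)) → h = h'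
  | 0, 0, _, _, _ => rfl
  | 0, h' + 1, t, h1, h2 => by
      obtain ⟨a, rfl⟩ := h1
      obtain ⟨f, i, he, _⟩ := h2
      exact absurd he (by simp)
  | h + 1, 0, t, h1, h2 => by
      obtain ⟨a, rfl⟩ := h2
      obtain ⟨f, i, he, _⟩ := h1
      exact absurd he (by simp)
  | h + 1, h' + 1, t, h1, h2 => by
      obtain ⟨f, i, rfl, _, hm⟩ := h1
      obtain ⟨f', i', he, _, hm'⟩ := h2
      injection he with he1 he2
      subst he1
      have := lev_unique hd h h' (f ⟨0, hd⟩) (hm _) (hm' _)
      omega

/-- The set of trees naming the vertices of the tower with layers `0, …, H`. -/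
def tower (d M H : ℕ) : Set (T d M) := {t | ∃ h ≤ H, t ∈ lev h}

theorem tower_finite (H : ℕ) : (tower d M H).Finite := by
  have : tower d M H = ⋃ h ∈ Set.Iic H, (lev h : Set (T d M)) := by
    ext t
    simp [tower]
  rw [this]
  exact (Set.finite_Iic H).biUnion (fun h _ => lev_finite h)

/-- The vertices of the tower. -/
abbrev X (d M H : ℕ) : Type := {t : T d M // t ∈ tower d M H}

instance (H : ℕ) : Finite (X d M H) := (tower_finite H).to_subtype

/-- The assignments: for every vertex of the tower a set of positions of out-neighbours. -/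
abbrev Asg (d M H : ℕ) : Type := X d M H → Finset (Fin d)

instance (H : ℕ) : Finite (Asg d M H) := Pi.finite

open Classical in
/-- Evaluate an assignment at a tree. -/
noncomputable def ev {H : ℕ} (c : Asg d M H) (t : T d M) : Finset (Fin d) :=
  if h : t ∈ tower d M H then c ⟨t, h⟩ else ∅

theorem ev_coe {H : ℕ} (c : Asg d M H) (x : X d M H) : ev c x.1 = c x := by
  unfold ev
  rw [dif_pos x.2]

/-- Coherence of a set of vertices of layer `h` for `c`. -/
def Coh (c : T d M → Finset (Fin d)) : ℕ → Set (T d M) → Prop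
  | 0, _ => True
  | h + 1, Y => ∃ (Z : Fin d → T d M) (K : Finset (Fin d)),
      (∀ y ∈ Y, (∃ i, y = T.node Z i) ∧ c y = K) ∧ Coh c h (Set.range Z)

theorem Coh.mono {c : T d M → Finset (Fin d)} {h : ℕ} {Y Y' : Set (T d M)}
    (hY : Coh c h Y) (hs : Y' ⊆ Y) : Coh c h Y' := by
  cases h with
  | zero => trivial
  | succ h =>
      obtain ⟨Z, K, h1, h2⟩ := hY
      exact ⟨Z, K, fun y hy => h1 y (hs hy), h2⟩

/-- The key lemma: fewer than `d` assignments have a common coherent `d`-set in each layer. -/
theorem key {ι : Type} [Finite ι] (g : ι → T d M → Finset (Fin d))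
    (hι : Nat.card ι ≤ d) (hM : d * (2 ^ d) ^ d ≤ M) :
    ∀ h : ℕ, ∃ Y : Fin d → T d M, Function.Injective Y ∧ (∀ j, Y j ∈ lev h) ∧
      ∀ a, Coh (g a) h (Set.range Y)
  | 0 => ⟨T.leaf, fun a b hab => by injection hab, fun j => ⟨j, rfl⟩, fun _ => trivial⟩
  | h + 1 => by
      classical
      obtain ⟨Z, hZi, hZl, hZc⟩ := key g hι hM h
      have : Fintype ι := Fintype.ofFinite ι
      have hcard : Fintype.card (ι → Finset (Fin d)) * d ≤ Fintype.card (Fin M) := by
        rw [Fintype.card_fun, Fintype.card_finset, Fintype.card_fin, Fintype.card_fin]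
        refine le_trans ?_ hM
        rw [mul_comm]
        refine Nat.mul_le_mul_left d ?_
        refine Nat.pow_le_pow_right (by positivity) ?_
        rwa [← Nat.card_eq_fintype_card]
      obtain ⟨ty, hty⟩ := Fintype.exists_le_card_fiber_of_mul_le_card
        (f := fun i : Fin M => (fun a => g a (T.node Z i) : ι → Finset (Fin d))) hcard
      obtain ⟨R, hRs, hRc⟩ := Finset.exists_subset_card_eq hty
      let e := R.equivFinOfCardEq hRc
      refine ⟨fun j => T.node Z (e.symm j).1, ?_, ?_, ?_⟩
      · intro a b hab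
        simp only at hab
        injection hab with h1 h2
        exact e.symm.injective (Subtype.ext h2)
      · intro j
        exact ⟨Z, _, rfl, hZi, hZl⟩
      · intro a
        refine ⟨Z, ty a, ?_, hZc a⟩
        rintro y ⟨j, rfl⟩
        refine ⟨⟨_, rfl⟩, ?_⟩
        have hm := hRs (e.symm j).2
        rw [Finset.mem_filter] at hm
        have := congrFun hm.2 a
        simpa using this

/-! ### The digraph -/

/-- The vertex type: the tower and `d` copies of the gates. -/
abbrev VV (d M H : ℕ) : Type := X d M H ⊕ (Fin d × Finset (Asg d M H))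

open Classical in
/-- The arcs. -/
def adj {H : ℕ} (Y : Finset (Asg d M H) → Fin d → T d M) : VV d M H → VV d M H → Prop
  | Sum.inl x, Sum.inl y => ∃ f i j, x.1 = T.node f i ∧ y.1 = f j
  | Sum.inl x, Sum.inr g => (∃ a, x.1 = T.leaf a) ∧ ∀ c, c ∈ g.2
  | Sum.inr g, Sum.inl x => g.2.card < d ∧ ∃ a, x.1 = Y g.2 a
  | Sum.inr g, Sum.inr g' => d ≤ g.2.card ∧ g'.1 = g.1 ∧ ∃ b ∈ g.2, g'.2 = g.2.erase b

theorem adj_irrefl (hd : 0 < d) {H : ℕ} (Y : Finset (Asg d M H) → Fin d → T d M)
    (v : VV d M H) : ¬ adj Y v v := by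
  classical
  rcases v with x | g
  · rintro ⟨f, i, j, h1, h2⟩
    obtain ⟨h, _, hx⟩ := x.2
    have hx' := hx
    rw [h1] at hx'
    obtain ⟨h', rfl, _, hm⟩ := node_mem_lev hx'
    have := hm j
    rw [← h2] at this
    have := lev_unique hd _ _ _ hx this
    omega
  · rintro ⟨_, _, b, hb, he⟩
    have : b ∉ g.2.erase b := Finset.notMem_erase b g.2
    rw [← he] at this
    exact this hb

/-- The digraph. -/
def DD (hd : 0 < d) {H : ℕ} (Y : Finset (Asg d M H) → Fin d → T d M) : Dgr (VV d M H) :=
  ⟨adj Y, adj_irrefl hd Y⟩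

/-- A criterion for having at least `n` out-neighbours. -/
theorem le_ncard_of_inj {V α : Type*} [Finite V] [Fintype α] {s : Set V} (f : α → V)
    (hf : Function.Injective f) (hs : ∀ a, f a ∈ s) : Fintype.card α ≤ s.ncard := by
  have h1 : (Set.range f).ncard = Fintype.card α := by
    rw [← Set.image_univ, Set.ncard_image_of_injective _ hf, Set.ncard_univ,
      Nat.card_eq_fintype_card]
  rw [← h1]
  apply Set.ncard_le_ncard _ (Set.toFinite s)
  rintro v ⟨a, rfl⟩
  exact hs a

theorem DD_minOut (hd : 0 < d) {H : ℕ} (Y : Finset (Asg d M H) → Fin d → T d M)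
    (hYi : ∀ B, B.card < d → Function.Injective (Y B))
    (hYl : ∀ B, B.card < d → ∀ j, Y B j ∈ (lev H : Set (T d M))) :
    (DD hd Y).MinOutGe d := by
  classical
  have : Fintype (Asg d M H) := Fintype.ofFinite _
  rintro (x | g)
  · obtain ⟨h, hh, hx⟩ := x.2
    cases h with
    | zero =>
        obtain ⟨a, ha⟩ := hx
        have := le_ncard_of_inj (s := {u | (DD hd Y).Adj (Sum.inl x) u})
          (fun j : Fin d => (Sum.inr (j, Finset.univ) : VV d M H))
          (fun a b hab => by simpa using hab)
          (fun j => ⟨⟨a, ha⟩, fun c => Finset.mem_univ c⟩)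
        simpa using this
    | succ h =>
        obtain ⟨f, i, he, hf, hm⟩ := hx
        have := le_ncard_of_inj (s := {u | (DD hd Y).Adj (Sum.inl x) u})
          (fun j : Fin d => (Sum.inl ⟨f j, h, by omega, hm j⟩ : VV d M H))
          (fun a b hab => hf (by simpa using hab))
          (fun j => ⟨f, i, j, he, rfl⟩)
        simpa using this
  · by_cases hc : g.2.card < d
    · have := le_ncard_of_inj (s := {u | (DD hd Y).Adj (Sum.inr g) u})
          (fun j : Fin d => (Sum.inl ⟨Y g.2 j, H, le_rfl, hYl g.2 hc j⟩ : VV d M H))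
          (fun a b hab => hYi g.2 hc (by simpa using hab))
          (fun j => ⟨hc, j, rfl⟩)
      simpa using this
    · have := le_ncard_of_inj (s := {u | (DD hd Y).Adj (Sum.inr g) u})
          (fun b : {b // b ∈ g.2} => (Sum.inr (g.1, g.2.erase b.1) : VV d M H))
          (fun a b hab => by
            have h1 : g.2.erase a.1 = g.2.erase b.1 := by simpa using hab
            have h2 : a.1 ∉ g.2.erase a.1 := Finset.notMem_erase _ _
            rw [h1] at h2
            by_contra hne
            exact h2 (Finset.mem_erase.2 ⟨fun h => hne (Subtype.ext h), a.2⟩))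
          (fun b => ⟨not_lt.1 hc, rfl, b.1, b.2, rfl⟩)
      rw [Fintype.card_coe] at this
      exact le_trans (not_lt.1 hc) this

/-- A set of at least `k` surviving vertices of a coherent set yields a layered structure. -/
theorem layers (hd : 0 < d) {H : ℕ} (Y : Finset (Asg d M H) → Fin d → T d M)
    (D' : Sub (DD hd Y)) {k : ℕ} (hk : 1 ≤ k) (hD : D'.MinOutGe k) (c : Asg d M H)
    (hc : ∀ x : X d M H, ∀ j, j ∈ c x ↔ ∃ f i, x.1 = T.node f i ∧
      ∃ y : X d M H, y.1 = f j ∧ D'.arcs (Sum.inl x) (Sum.inl y)) :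
    ∀ (h : ℕ) (S : Set (T d M)), Coh (ev c) h S → ∀ U : Set (X d M H),
      (∀ x ∈ U, x.1 ∈ S) → (∀ x ∈ U, (Sum.inl x : VV d M H) ∈ D'.verts) →
      (∀ x ∈ U, x.1 ∈ (lev h : Set (T d M))) → k ≤ U.ncard →
      ∃ W : ℕ → Set (X d M H), (∀ i ≤ h, k ≤ (W i).ncard ∧
          ∀ x ∈ W i, x.1 ∈ (lev i : Set (T d M)) ∧ (Sum.inl x : VV d M H) ∈ D'.verts) ∧
        W h = U ∧
        ∀ i < h, ∀ x ∈ W (i + 1), ∀ y ∈ W i, D'.arcs (Sum.inl x) (Sum.inl y)
  | 0, S, _, U, _, hUv, hUl, hUk => by
      refine ⟨fun _ => U, ?_, rfl, ?_⟩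
      · intro i hi
        obtain rfl : i = 0 := by omega
        exact ⟨hUk, fun x hx => ⟨hUl x hx, hUv x hx⟩⟩
      · intro i hi
        omega
  | h + 1, S, hS, U, hUS, hUv, hUl, hUk => by
      classical
      obtain ⟨Z, K, hZK, hZ⟩ := hS
      -- the next layer
      let U' : Set (X d M H) := {y | ∃ j ∈ K, y.1 = Z j}
      have harc : ∀ x ∈ U, ∀ y ∈ U', D'.arcs (Sum.inl x) (Sum.inl y) := by
        rintro x hx y ⟨j, hj, hy⟩
        obtain ⟨⟨i, hxi⟩, hcx⟩ := hZK x.1 (hUS x hx)
        rw [ev_coe] at hcx
        rw [← hcx, hc] at hj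
        obtain ⟨f, i', hf, y', hy', ha⟩ := hj
        rw [hxi] at hf
        injection hf with h1 h2
        have : y' = y := Subtype.ext (by rw [hy', hy, h1])
        rwa [this] at ha
      have hne : U.Nonempty := by
        rw [← Set.ncard_pos (Set.toFinite U)]
        omega
      obtain ⟨x, hx⟩ := hne
      obtain ⟨⟨i, hxi⟩, hcx⟩ := hZK x.1 (hUS x hx)
      have hxl := hUl x hx
      rw [hxi] at hxl
      obtain ⟨h', hh', _, hZm⟩ := node_mem_lev hxl
      obtain rfl : h = h' := by omega
      have hU'k : k ≤ U'.ncard := by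
        refine le_trans (hD _ (hUv x hx)) ?_
        have hsub : {u | D'.arcs (Sum.inl x) u} ⊆ Sum.inl '' U' := by
          rintro (y | g) hu
          · have hadj := D'.arcs_le _ _ hu
            obtain ⟨f, i', j, hf, hy⟩ := hadj
            have hfe := hf
            rw [hxi] at hfe
            injection hfe with h1 h2
            refine ⟨y, ⟨j, ?_, by rw [hy, h1]⟩, rfl⟩
            rw [ev_coe] at hcx
            rw [← hcx, hc]
            exact ⟨f, i', hf, y, hy, hu⟩
          · have hadj := D'.arcs_le _ _ hu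
            obtain ⟨⟨a, ha⟩, _⟩ := hadj
            rw [hxi] at ha
            exact absurd ha (by simp)
        refine le_trans (Set.ncard_le_ncard hsub (Set.toFinite _)) ?_
        rw [Set.ncard_image_of_injective _ Sum.inl_injective]
      obtain ⟨W, hW1, hW2, hW3⟩ := layers hd Y D' hk hD c hc h (Set.range Z) hZ U'
        (by rintro y ⟨j, _, hy⟩; exact ⟨j, hy.symm⟩)
        (fun y hy => D'.tgt_mem _ _ (harc x hx y hy))
        (by rintro y ⟨j, _, hy⟩; rw [hy]; exact hZm j) hU'k
      refine ⟨fun i => if i = h + 1 then U else W i, ?_, ?_, ?_⟩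
      · intro i hi
        by_cases hi' : i = h + 1
        · subst hi'
          simp only [if_true]
          exact ⟨hUk, fun x hx => ⟨hUl x hx, hUv x hx⟩⟩
        · simp only [if_neg hi']
          exact hW1 i (by omega)
      · simp
      · intro i hi
        by_cases hi' : i = h
        · subst hi'
          simp only [if_true]
          rw [if_neg (by omega), hW2]
          exact harc
        · simp only
          rw [if_neg (by omega), if_neg (by omega)]
          exact hW3 i (by omega)

/-- A layered structure contains every digraph with a height function of bounded range. -/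
theorem contains_of_layers (hd : 0 < d) {H : ℕ} (Y : Finset (Asg d M H) → Fin d → T d M)
    (D' : Sub (DD hd Y)) {k : ℕ} {V : Type*} [Finite V] (F : Dgr V) (g : V → ℕ)
    (hg : ∀ u v, F.Adj u v → g u = g v + 1) (hgH : ∀ u, g u ≤ H) (hk : Nat.card V ≤ k)
    (W : ℕ → Set (X d M H)) (hW1 : ∀ i ≤ H, k ≤ (W i).ncard ∧
          ∀ x ∈ W i, x.1 ∈ (lev i : Set (T d M)) ∧ (Sum.inl x : VV d M H) ∈ D'.verts)
    (hW3 : ∀ i < H, ∀ x ∈ W (i + 1), ∀ y ∈ W i, D'.arcs (Sum.inl x) (Sum.inl y)) :
    Contains D' F := by
  classical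
  have : Fintype V := Fintype.ofFinite V
  have hemb : ∀ i, i ≤ H → ∃ e : V → X d M H, Function.Injective e ∧ ∀ v, e v ∈ W i := by
    intro i hi
    have h1 : Nat.card V ≤ (W i).ncard := le_trans hk (hW1 i hi).1
    have h2 : Nat.card V ≤ Nat.card (W i) := by rwa [Nat.card_coe_set_eq]
    have : Fintype (W i) := Fintype.ofFinite _
    rw [Nat.card_eq_fintype_card, Nat.card_eq_fintype_card] at h2
    obtain ⟨e⟩ := Function.Embedding.nonempty_of_card_le h2
    exact ⟨fun v => (e v).1, fun a b hab => e.injective (Subtype.ext hab), fun v => (e v).2⟩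
  have : Nonempty (X d M H) := ⟨⟨T.leaf ⟨0, hd⟩, 0, Nat.zero_le _, ⟨_, rfl⟩⟩⟩
  choose! e he1 he2 using hemb
  refine ⟨fun v => Sum.inl (e (g v) v), ?_, ?_, ?_⟩
  · intro u v huv
    have huv' : e (g u) u = e (g v) v := by simpa using huv
    have h1 := ((hW1 _ (hgH u)).2 _ (he2 _ (hgH u) u)).1
    have h2 := ((hW1 _ (hgH v)).2 _ (he2 _ (hgH v) v)).1
    rw [huv'] at h1
    have h3 := lev_unique hd _ _ _ h1 h2
    rw [h3] at huv'
    exact he1 _ (hgH v) huv'
  · intro v
    exact ((hW1 _ (hgH v)).2 _ (he2 _ (hgH v) v)).2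
  · intro u v huv
    have h1 := hg u v huv
    have h2 := hgH u
    refine hW3 (g v) (by omega) _ ?_ _ (he2 _ (hgH v) v)
    have := he2 _ (hgH u) u
    rwa [h1] at this ⊢

/-- The main argument. -/
theorem main (hd : 0 < d) {H : ℕ} (Y : Finset (Asg d M H) → Fin d → T d M)
    (hYl : ∀ B, B.card < d → ∀ j, Y B j ∈ (lev H : Set (T d M)))
    (hYc : ∀ B, B.card < d → ∀ c ∈ B, Coh (ev c) H (Set.range (Y B)))
    (D' : Sub (DD hd Y)) {k : ℕ} (hk : 2 ≤ k) (hD : D'.MinOutGe k)
    {V : Type*} [Finite V] (F : Dgr V) (g : V → ℕ)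
    (hg : ∀ u v, F.Adj u v → g u = g v + 1) (hgH : ∀ u, g u ≤ H) (hkV : Nat.card V ≤ k) :
    Contains D' F := by
  classical
  by_contra hcon
  let c : Asg d M H := fun x => Finset.univ.filter (fun j => ∃ f i, x.1 = T.node f i ∧
      ∃ y : X d M H, y.1 = f j ∧ D'.arcs (Sum.inl x) (Sum.inl y))
  have hc : ∀ x : X d M H, ∀ j, j ∈ c x ↔ ∃ f i, x.1 = T.node f i ∧
      ∃ y : X d M H, y.1 = f j ∧ D'.arcs (Sum.inl x) (Sum.inl y) := by
    intro x j
    simp [c]
  -- a vertex with fewer than `k` surviving out-neighbours does not survive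
  have hout : ∀ v, ({u | D'.arcs v u}).ncard < k → v ∉ D'.verts := by
    intro v hv hvm
    exact absurd (hD v hvm) (by omega)
  -- gates whose set of assignments contains `c` do not survive
  have hgate : ∀ (n : ℕ) (j : Fin d) (B : Finset (Asg d M H)), B.card = n → c ∈ B →
      (Sum.inr (j, B) : VV d M H) ∉ D'.verts := by
    intro n
    induction n using Nat.strong_induction_on with
    | _ n ih =>
      intro j B hBn hcB
      by_cases hBd : B.card < d
      · intro hmem
        have h1 := hD _ hmem
        let U : Set (X d M H) := {x | D'.arcs (Sum.inr (j, B)) (Sum.inl x)}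
        have hU : {u | D'.arcs (Sum.inr (j, B)) u} ⊆ Sum.inl '' U := by
          rintro (x | g') hu
          · exact ⟨x, hu, rfl⟩
          · have := (D'.arcs_le _ _ hu).1
            simp only at this
            omega
        have h2 : k ≤ U.ncard := by
          refine le_trans h1 ?_
          refine le_trans (Set.ncard_le_ncard hU (Set.toFinite _)) ?_
          rw [Set.ncard_image_of_injective _ Sum.inl_injective]
        have h3 : ∀ x ∈ U, ∃ a, x.1 = Y B a := fun x hx => (D'.arcs_le _ _ hx).2
        obtain ⟨W, hW1, _, hW3⟩ := layers hd Y D' (by omega) hD c hc H (Set.range (Y B))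
          (hYc B hBd c hcB) U
          (fun x hx => by obtain ⟨a, ha⟩ := h3 x hx; exact ⟨a, ha.symm⟩)
          (fun x hx => D'.tgt_mem _ _ hx)
          (fun x hx => by obtain ⟨a, ha⟩ := h3 x hx; rw [ha]; exact hYl B hBd a) h2
        exact hcon (contains_of_layers hd Y D' F g hg hgH hkV W hW1 hW3)
      · apply hout
        have hsub : {u | D'.arcs (Sum.inr (j, B)) u} ⊆ {Sum.inr (j, B.erase c)} := by
          rintro (x | g') hu
          · exact absurd (D'.arcs_le _ _ hu).1 hBd
          · obtain ⟨_, hj, b, hb, hbe⟩ := D'.arcs_le _ _ hu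
            simp only at hj hb hbe
            by_cases hbc : b = c
            · subst hbc
              have : g' = (j, B.erase c) := Prod.ext hj hbe
              rw [this]
              rfl
            · exfalso
              have hmem := D'.tgt_mem _ _ hu
              have hg' : g' = (j, B.erase b) := Prod.ext hj hbe
              rw [hg'] at hmem
              have hlt : (B.erase b).card < n := by
                rw [Finset.card_erase_of_mem hb]
                have : 0 < B.card := Finset.card_pos.2 ⟨b, hb⟩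
                omega
              exact ih _ hlt j (B.erase b) rfl
                (Finset.mem_erase.2 ⟨fun h => hbc h.symm, hcB⟩) hmem
        have := Set.ncard_le_ncard hsub (Set.toFinite _)
        rw [Set.ncard_singleton] at this
        omega
  -- no vertex of the tower survives
  have htower : ∀ (h : ℕ) (x : X d M H), x.1 ∈ (lev h : Set (T d M)) →
      (Sum.inl x : VV d M H) ∉ D'.verts := by
    intro h
    induction h with
    | zero =>
        rintro x ⟨a, ha⟩
        apply hout
        have hsub : {u | D'.arcs (Sum.inl x) u} ⊆ ∅ := by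
          rintro (y | g') hu
          · obtain ⟨f, i, j, hf, _⟩ := D'.arcs_le _ _ hu
            rw [ha] at hf
            exact absurd hf (by simp)
          · obtain ⟨_, hall⟩ := D'.arcs_le _ _ hu
            exact absurd (D'.tgt_mem _ _ hu) (hgate _ g'.1 g'.2 rfl (hall c))
        have := Set.ncard_le_ncard hsub (Set.toFinite _)
        rw [Set.ncard_empty] at this
        omega
    | succ h ih =>
        intro x hx
        apply hout
        have hsub : {u | D'.arcs (Sum.inl x) u} ⊆ ∅ := by
          rintro (y | g') hu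
          · obtain ⟨f, i, j, hf, hy⟩ := D'.arcs_le _ _ hu
            rw [hf] at hx
            obtain ⟨h', hh', _, hm⟩ := node_mem_lev hx
            obtain rfl : h = h' := by omega
            have := hm j
            rw [← hy] at this
            exact absurd (D'.tgt_mem _ _ hu) (ih y this)
          · obtain ⟨⟨a, ha⟩, _⟩ := D'.arcs_le _ _ hu
            rw [ha] at hx
            obtain ⟨f, i, he, _⟩ := hx
            exact absurd he (by simp)
        have := Set.ncard_le_ncard hsub (Set.toFinite _)
        rw [Set.ncard_empty] at this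
        omega
  have htower' : ∀ x : X d M H, (Sum.inl x : VV d M H) ∉ D'.verts := by
    intro x
    obtain ⟨h, _, hx⟩ := x.2
    exact htower h x hx
  -- no gate survives
  have hgate' : ∀ (n : ℕ) (j : Fin d) (B : Finset (Asg d M H)), B.card = n →
      (Sum.inr (j, B) : VV d M H) ∉ D'.verts := by
    intro n
    induction n using Nat.strong_induction_on with
    | _ n ih =>
      intro j B hBn
      apply hout
      have hsub : {u | D'.arcs (Sum.inr (j, B)) u} ⊆ ∅ := by
        rintro (x | g') hu
        · exact absurd (D'.tgt_mem _ _ hu) (htower' x)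
        · obtain ⟨_, hj, b, hb, hbe⟩ := D'.arcs_le _ _ hu
          simp only at hj hb hbe
          have hmem := D'.tgt_mem _ _ hu
          have hg' : g' = (j, B.erase b) := Prod.ext hj hbe
          rw [hg'] at hmem
          have hlt : (B.erase b).card < n := by
            rw [Finset.card_erase_of_mem hb]
            have : 0 < B.card := Finset.card_pos.2 ⟨b, hb⟩
            omega
          exact absurd hmem (ih _ hlt j (B.erase b) rfl)
      have := Set.ncard_le_ncard hsub (Set.toFinite _)
      rw [Set.ncard_empty] at this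
      omega
  obtain ⟨v, hv⟩ := D'.nonempty
  rcases v with x | ⟨j, B⟩
  · exact htower' x hv
  · exact hgate' _ j B rfl hv

/-- The explicit form: for every `d` there is a digraph of minimum out-degree at least `d` all of
whose nonempty subdigraphs of minimum out-degree at least `max 2 |V(F)|` contain `F`. -/
theorem explicit {W : Type*} [Finite W] [Nonempty W] (F : Dgr W) (h : W → ℤ)
    (hh : IsHeight F h) (d₀ : ℕ) :
    ∃ (V : Type) (_ : Finite V) (_ : Nonempty V) (D : Dgr V), D.MinOutGe d₀ ∧
      ∀ D' : Sub D, ∀ k : ℕ, 2 ≤ k → Nat.card W ≤ k → D'.MinOutGe k → Contains D' F := by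
  classical
  have : Fintype W := Fintype.ofFinite W
  -- the reversed and shifted height function
  obtain ⟨w₁, hw₁⟩ := Finite.exists_max h
  obtain ⟨w₀, hw₀⟩ := Finite.exists_min h
  let g : W → ℕ := fun w => (h w₁ - h w).toNat
  let H : ℕ := (h w₁ - h w₀).toNat
  have hgH : ∀ u, g u ≤ H := by
    intro u
    have h1 := hw₁ u
    have h2 := hw₀ u
    simp only [g, H]
    omega
  have hg : ∀ u v, F.Adj u v → g u = g v + 1 := by
    intro u v huv
    have h1 := hw₁ u
    have h2 := hw₁ v
    have h3 := hh u v huv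
    simp only [g]
    omega
  let d : ℕ := d₀ + 1
  have hd : 0 < d := Nat.succ_pos _
  let M : ℕ := d * (2 ^ d) ^ d
  have hkey : ∀ B : Finset (Asg d M H), ∃ Y : Fin d → T d M, B.card < d →
      Function.Injective Y ∧ (∀ j, Y j ∈ (lev H : Set (T d M))) ∧
      ∀ c ∈ B, Coh (ev c) H (Set.range Y) := by
    intro B
    by_cases hB : B.card < d
    · obtain ⟨Y, h1, h2, h3⟩ := key (d := d) (M := M) (ι := {c // c ∈ B})
        (fun a => ev a.1) (by rw [Nat.card_eq_fintype_card, Fintype.card_coe]; omega)
        le_rfl H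
      exact ⟨Y, fun _ => ⟨h1, h2, fun c hc => h3 ⟨c, hc⟩⟩⟩
    · exact ⟨T.leaf, fun hB' => absurd hB' hB⟩
  choose Y hY using hkey
  refine ⟨VV d M H, inferInstance, ⟨Sum.inr (⟨0, hd⟩, ∅)⟩, DD hd Y, ?_, ?_⟩
  · intro v
    exact le_trans (Nat.le_succ d₀) (DD_minOut hd Y (fun B hB => (hY B hB).1)
      (fun B hB => (hY B hB).2.1) v)
  · intro D' k hk hkW hD
    exact main hd Y (fun B hB => (hY B hB).2.1) (fun B hB => (hY B hB).2.2) D' hk hD F g hg hgH
      hkW

/-- Every finite digraph with a height function is not avoidable. -/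
theorem result (W : Type) [Finite W] [Nonempty W] (F : Dgr W) (h : W → ℤ)
    (hh : IsHeight F h) :
    (∀ d : ℕ, ∃ (V : Type) (_ : Finite V) (_ : Nonempty V) (D : Dgr V), D.MinOutGe d ∧
      ∀ D' : Sub D, D'.MinOutGe (max 2 (Nat.card W)) → Contains D' F) ∧
    ¬ Avoidable F := by
  refine ⟨?_, ?_⟩
  · intro d
    obtain ⟨V, i1, i2, D, hD, hall⟩ := explicit F h hh d
    exact ⟨V, i1, i2, D, hD, fun D' hD' =>
      hall D' _ (le_max_left _ _) (le_max_right _ _) hD'⟩
  · rintro ⟨dF, hdF⟩
    obtain ⟨V, i1, i2, D, hD, hall⟩ := explicit F h hh (dF (max 2 (Nat.card W)))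
    obtain ⟨D', hD', hno⟩ := hdF (max 2 (Nat.card W)) V D hD
    exact hno (hall D' _ (le_max_left _ _) (le_max_right _ _) hD')

end Pool.Agent.Results.MP_f1492e_co.NotAvoidable
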